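import Pool.Agent.helper81.CI.Spec

/-! GRI: growth of the largest volume of the sets `AZ C z ρ ρ`. -/

set_option autoImplicit false

open MeasureTheory Set Filter Topology
open scoped ENNReal
open Pool.Agent.helper81.CW Pool.Agent.CL

noncomputable section

namespace Pool.Agent.CI

theorem GRI_hom {n : ℕ} (z x : E n) (l : ℝ) :
    AffineMap.homothety z l x = (1 - l) • z + l • x := by
  rw [AffineMap.homothety_apply]
  simp only [vsub_eq_sub, vadd_eq_add, smul_sub, sub_smul, one_smul]
  abel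

theorem GRI (hF : FAR_stmt) (hJ1 : J1_stmt) (hJ2 : J2_stmt) : GRI_stmt := by
  intro n C ρ hC hρ
  have hCc : IsCompact C := hC.2.1
  have hCn : C.Nonempty := hC.1
  have hdiam := (hJ2 n C 1 hC).1
  obtain ⟨z, r, hr0, hr2, hzr⟩ := hJ1 n C hCc hCn hdiam
  have hr34 : r ≤ 3 / 4 := by nlinarith
  have h1r : 0 < 1 - r := by linarith
  have hρr : 0 < ρ - r := by linarith
  have hfz : far C z ≤ r := by
    obtain ⟨c, hc, hcz⟩ := (hF n C hCc hCn z z).2.1
    rw [← hcz, norm_sub_rev]
    exact hzr c hc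
  set l : ℝ := (1 - r) / (ρ - r) with hl
  have hl0 : 0 < l := div_pos h1r hρr
  have hl1 : l ≤ 1 := by
    rw [hl, div_le_one hρr]
    linarith
  have hlr : l * (ρ - r) = 1 - r := div_mul_cancel₀ _ hρr.ne'
  -- the image
  have hfar : ∀ x : E n, far C x ≤ ρ → far C (AffineMap.homothety z l x) ≤ 1 := by
    intro x hx'
    have h1 := (hF n C hCc hCn z x).2.2.2 (1 - l) l (by linarith) hl0.le (by ring)
    rw [GRI_hom]
    refine h1.trans ?_
    have h3 : (1 - l) * far C z ≤ (1 - l) * r := mul_le_mul_of_nonneg_left hfz (by linarith)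
    have h4 : l * far C x ≤ l * ρ := mul_le_mul_of_nonneg_left hx' hl0.le
    nlinarith
  have hsub : ∀ w : E n, AffineMap.homothety z l '' AZ C w ρ ρ ⊆
      AZ C (AffineMap.homothety z l w) 1 1 := by
    rintro w _ ⟨x, hx, rfl⟩
    refine ⟨hfar x hx.1, ?_⟩
    have h2 : (2 : ℝ) • (AffineMap.homothety z l w) - AffineMap.homothety z l x =
        AffineMap.homothety z l ((2 : ℝ) • w - x) := by
      rw [GRI_hom, GRI_hom, GRI_hom]
      simp only [smul_sub, smul_add, sub_smul, one_smul, two_smul]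
      abel
    rw [h2]
    exact hfar _ hx.2
  have hvol : ∀ w : E n, ENNReal.ofReal (l ^ n) * volume (AZ C w ρ ρ) ≤ NN C 1 := by
    intro w
    have h1 := measure_mono (μ := (volume : Measure (E n))) (hsub w)
    rw [Measure.addHaar_image_homothety] at h1
    have h2 : Module.finrank ℝ (E n) = n := by simp
    rw [h2, abs_of_nonneg (by positivity)] at h1
    exact h1.trans (le_iSup (fun w : E n => volume (AZ C w 1 1)) _)
  have hexp : l⁻¹ ^ n ≤ Real.exp (4 * n * (ρ - 1)) := by
    have h1 : l⁻¹ ≤ Real.exp (4 * (ρ - 1)) := by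
      have h2 : l⁻¹ ≤ 4 * (ρ - 1) + 1 := by
        rw [hl, inv_div, div_le_iff₀ h1r]
        nlinarith
      exact h2.trans (Real.add_one_le_exp _)
    calc l⁻¹ ^ n ≤ Real.exp (4 * (ρ - 1)) ^ n := pow_le_pow_left₀ (by positivity) h1 n
      _ = Real.exp (4 * n * (ρ - 1)) := by
        rw [← Real.exp_nat_mul]
        congr 1
        ring
  have hln : (0 : ℝ) < l ^ n := by positivity
  refine iSup_le fun w => ?_
  calc volume (AZ C w ρ ρ) = ENNReal.ofReal (l⁻¹ ^ n) *
        (ENNReal.ofReal (l ^ n) * volume (AZ C w ρ ρ)) := by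
        rw [← mul_assoc, ← ENNReal.ofReal_mul (by positivity), ← mul_pow, inv_mul_cancel₀ hl0.ne',
          one_pow, ENNReal.ofReal_one, one_mul]
    _ ≤ ENNReal.ofReal (Real.exp (4 * n * (ρ - 1))) * NN C 1 :=
        mul_le_mul' (ENNReal.ofReal_le_ofReal hexp) (hvol w)

end Pool.Agent.CI
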